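import Pool.Agent.helper35.MR.SpecB

/-! # mr:W4. Assembly of the words -/

set_option autoImplicit false

open Finset

namespace Pool.Agent.helper35.MR

open Pool.Agent.RRank

theorem W4_swap {K : Type} [Field K] {ι : Type} [Fintype ι] (M : ι → ι → ι → ι → K)
    (h : Full4 M) : Full4 (fun i j k m => M k m i j) := by
  intro U₁ U₂ U₃ U₄ hU
  obtain ⟨u₃, h3, u₄, h4, u₁, h1, u₂, h2, hne⟩ := h U₃ U₄ U₁ U₂ (by omega)
  refine ⟨u₁, h1, u₂, h2, u₃, h3, u₄, h4, ?_⟩
  have he : ev4 (fun i j k m => M k m i j) u₁ u₂ u₃ u₄ = ev4 M u₃ u₄ u₁ u₂ := by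
    unfold ev4
    calc ∑ x, ∑ y, ∑ z, ∑ t, M z t x y * (u₁ x * u₂ y * u₃ z * u₄ t)
        = ∑ x, ∑ z, ∑ t, ∑ y, M z t x y * (u₁ x * u₂ y * u₃ z * u₄ t) := by
          refine Finset.sum_congr rfl fun x _ => ?_
          rw [Finset.sum_comm]
          refine Finset.sum_congr rfl fun z _ => ?_
          rw [Finset.sum_comm]
      _ = ∑ z, ∑ t, ∑ x, ∑ y, M z t x y * (u₁ x * u₂ y * u₃ z * u₄ t) := by
          rw [Finset.sum_comm]
          refine Finset.sum_congr rfl fun z _ => ?_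
          rw [Finset.sum_comm]
      _ = ∑ z, ∑ t, ∑ x, ∑ y, M z t x y * (u₃ z * u₄ t * u₁ x * u₂ y) := by
          refine Finset.sum_congr rfl fun z _ => Finset.sum_congr rfl fun t _ =>
            Finset.sum_congr rfl fun x _ => Finset.sum_congr rfl fun y _ => ?_
          ring
  rw [he]
  exact hne

theorem W4 (hWA : WA_stmt) (hWB : WB_stmt) (hWC : WC_stmt) : W4_stmt := by
  intro K _ F hF l hl
  by_cases h1 : F .lt .lt - F .lt .gt - F .gt .lt + F .gt .gt = 0
  swap
  · exact hWA K F h1 l hl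
  by_cases h2 : F .eq .lt - F .eq .gt - F .gt .lt + F .gt .gt = 0
  swap
  · exact hWB K F h1 h2 l hl
  by_cases h3 : F .lt .eq - F .lt .gt - F .gt .eq + F .gt .gt = 0
  swap
  · obtain ⟨x, y, z, w, hf⟩ := hWB K (fun r s => F s r) (by linear_combination h1)
      (fun h => h3 (by linear_combination h)) l hl
    exact ⟨z, w, x, y, W4_swap _ hf⟩
  by_cases h4 : F .eq .eq - F .eq .gt - F .gt .eq + F .gt .gt = 0
  swap
  · exact hWC K F h1 h2 h3 h4 l hl
  exfalso
  apply hF
  refine ⟨fun r => F r .gt, fun s => F .gt s - F .gt .gt, ?_⟩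
  intro r s
  cases r <;> cases s
  · linear_combination h1
  · linear_combination h3
  · ring
  · linear_combination h2
  · linear_combination h4
  · ring
  · ring
  · ring
  · ring

end Pool.Agent.helper35.MR
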